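import Mathlib

/-! Galois theory helpers for tame extensions. -/

set_option autoImplicit false

open Polynomial

namespace Pool.Agent.W417.TT

/-- the valuation of a pull back -/
theorem val_comap {E F : Type} [Field E] [Field F] (A : ValuationSubring F) (f : E →+* F)
    (a : E) : (A.comap f).valuation a < 1 ↔ A.valuation (f a) < 1 := by
  have key : ∀ {G : Type} [Field G] (B : ValuationSubring G) (b : G),
      B.valuation b < 1 ↔ (b = 0 ∨ b⁻¹ ∉ B) := by
    intro G _ B b
    rcases eq_or_ne b 0 with rfl | hb
    · simp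
    · rw [← B.valuation_le_one_iff, map_inv₀, not_le]
      have hv : B.valuation b ≠ 0 := (Valuation.ne_zero_iff _).2 hb
      constructor
      · intro h
        exact Or.inr ((one_lt_inv₀ (zero_lt_iff.2 hv)).2 h)
      · rintro (h | h)
        · exact absurd h hb
        · exact (one_lt_inv₀ (zero_lt_iff.2 hv)).1 h
  rw [key, key, ValuationSubring.mem_comap, map_inv₀, map_eq_zero]

/-- extension of a valuation ring -/
theorem exists_ext {K N : Type} [Field K] [Field N] (f : K →+* N) (v : ValuationSubring K) :
    ∃ O : ValuationSubring N, O.comap f = v := by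
  let e := v.toSubring.equivMapOfInjective f f.injective
  let I : Ideal (v.toSubring.map f) :=
    (IsLocalRing.maximalIdeal v).comap (e.symm : (v.toSubring.map f) →+* v.toSubring)
  have hI : I ≠ ⊤ := Ideal.comap_ne_top _ (Ideal.IsPrime.ne_top inferInstance)
  obtain ⟨B, hB1, hB2⟩ := Ideal.image_subset_nonunits_valuationSubring I hI
  refine ⟨B, ?_⟩
  ext x
  rw [ValuationSubring.mem_comap]
  constructor
  · intro hx
    by_contra hxv
    have h1 : x⁻¹ ∈ v := (v.mem_or_inv_mem x).resolve_left hxv
    have h2 : (⟨x⁻¹, h1⟩ : v) ∈ IsLocalRing.maximalIdeal v := by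
      rw [ValuationSubring.valuation_lt_one_iff]
      change v.valuation x⁻¹ < 1
      have h0 : x ≠ 0 := by
        rintro rfl
        exact hxv v.zero_mem
      rw [← v.valuation_le_one_iff, not_le] at hxv
      rw [map_inv₀]
      exact inv_lt_one_of_one_lt₀ hxv
    have h3 : f x⁻¹ ∈ B.nonunits := by
      apply hB2
      refine ⟨e ⟨x⁻¹, h1⟩, ?_, rfl⟩
      change e.symm (e ⟨x⁻¹, h1⟩) ∈ IsLocalRing.maximalIdeal v
      rw [RingEquiv.symm_apply_apply]
      exact h2
    rw [ValuationSubring.mem_nonunits_iff, map_inv₀, map_inv₀] at h3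
    have h4 := (B.valuation_le_one_iff (f x)).2 hx
    have h0 : x ≠ 0 := by
      rintro rfl
      exact hxv v.zero_mem
    have h5 : B.valuation (f x) ≠ 0 := (Valuation.ne_zero_iff _).2 ((map_ne_zero f).2 h0)
    exact absurd h3 (not_lt.2 ((one_le_inv₀ (zero_lt_iff.2 h5)).2 h4))
  · intro hx
    exact hB1 ⟨x, hx, rfl⟩

/-- enlarging a finite Galois extension after a base change -/
theorem exists_galois {K N K' Ω : Type} [Field K] [Field N] [Field K'] [Field Ω] [IsAlgClosed Ω]
    [Algebra K N] [FiniteDimensional K N] [IsGalois K N] [Algebra K' Ω] (k : K →+* K')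
    (e : N →+* Ω) (he : ∀ x, e (algebraMap K N x) = algebraMap K' Ω (k x)) :
    ∃ N' : IntermediateField K' Ω, FiniteDimensional K' N' ∧ IsGalois K' N' ∧ ∀ x, e x ∈ N' := by
  obtain ⟨p, hp, hsp⟩ := IsGalois.is_separable_splitting_field K N
  have hp' : (p.map k).Separable := hp.map
  have hs' : (Polynomial.map (algebraMap K' Ω) (p.map k)).Splits := IsAlgClosed.splits _
  have hN' := IntermediateField.adjoin_rootSet_isSplittingField hs'
  refine ⟨IntermediateField.adjoin K' ((p.map k).rootSet Ω), ?_, ?_, ?_⟩
  · exact Polynomial.IsSplittingField.finiteDimensional _ (p.map k)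
  · exact IsGalois.of_separable_splitting_field hp'
  · intro x
    have hx : x ∈ Algebra.adjoin K (p.rootSet N) := by
      rw [Polynomial.IsSplittingField.adjoin_rootSet]
      trivial
    induction hx using Algebra.adjoin_induction with
    | mem x hx =>
      apply IntermediateField.subset_adjoin
      rw [Polynomial.mem_rootSet]
      refine ⟨hp'.ne_zero, ?_⟩
      have h0 := (Polynomial.mem_rootSet.1 hx).2
      rw [aeval_def, eval₂_map]
      have h1 : (algebraMap K' Ω).comp k = e.comp (algebraMap K N) := by
        ext y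
        exact (he y).symm
      rw [h1, ← hom_eval₂, ← aeval_def, h0, map_zero]
    | algebraMap r =>
      rw [he]
      exact IntermediateField.algebraMap_mem _ _
    | add x y _ _ hx hy =>
      rw [map_add]
      exact add_mem hx hy
    | mul x y _ _ hx hy =>
      rw [map_mul]
      exact mul_mem hx hy

/-- restriction of an automorphism to a normal extension -/
theorem exists_restrict {K N K' N' : Type} [Field K] [Field N] [Field K'] [Field N']
    [Algebra K N] [Normal K N] [Algebra K' N'] (k : K →+* K')
    (e : N →+* N') (he : ∀ x, e (algebraMap K N x) = algebraMap K' N' (k x))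
    (σ : N' ≃ₐ[K'] N') : ∃ t : N ≃ₐ[K] N, ∀ x, e (t x) = σ (e x) := by
  let _ : Algebra K K' := k.toAlgebra
  let _ : Algebra K N' := ((algebraMap K' N').comp k).toAlgebra
  let _ : Algebra N N' := e.toAlgebra
  have : IsScalarTower K K' N' := IsScalarTower.of_algebraMap_eq fun _ => rfl
  have : IsScalarTower K N N' := IsScalarTower.of_algebraMap_eq fun x => (he x).symm
  refine ⟨(σ.restrictScalars K).restrictNormal N, fun x => ?_⟩
  exact (σ.restrictScalars K).restrictNormal_commutes N x

/-- an embedding over a given one -/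
theorem exists_embed {K L N Ω : Type} [Field K] [Field L] [Field N] [Field Ω] [IsAlgClosed Ω]
    [Algebra K N] [FiniteDimensional K N] (i : K →+* L) (j : L →+* N)
    (hj : ∀ x, j (i x) = algebraMap K N x) (l : L →+* Ω) :
    ∃ e : N →+* Ω, ∀ y, e (j y) = l y := by
  let _ : Algebra K L := i.toAlgebra
  let _ : Algebra L N := j.toAlgebra
  let _ : Algebra L Ω := l.toAlgebra
  have : IsScalarTower K L N := IsScalarTower.of_algebraMap_eq fun x => (hj x).symm
  have : Algebra.IsAlgebraic L N := Algebra.IsAlgebraic.tower_top (K := K) L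
  let e : N →ₐ[L] Ω := IsAlgClosed.lift
  exact ⟨e, fun y => e.commutes y⟩

/-- a subfield condition -/
theorem field_ind {K' L L' : Type} [Field K'] [Field L] [Field L'] (i' : K' →+* L')
    (l : L →+* L') (hF : ∀ F : Subfield L', (∀ x, i' x ∈ F) → (∀ x, l x ∈ F) → F = ⊤)
    {M : Type} [Field M] (f g : L' →+* M) (h1 : ∀ x, f (i' x) = g (i' x))
    (h2 : ∀ x, f (l x) = g (l x)) (y : L') : f y = g y := by
  have := hF (RingHom.eqLocusField f g) h1 h2
  have hy : y ∈ RingHom.eqLocusField f g := by
    rw [this]
    trivial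
  exact hy

end Pool.Agent.W417.TT
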